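import Mathlib
import Pool.Agent.H892.ZL.Stm2

set_option autoImplicit false

/-!
# The base points of the first net
-/

namespace Pool.Agent.H349.ZL

open MvPolynomial Matrix

open Pool.Agent.H892.ZL

theorem qfA0 (e : Fin 4 → ℂ) : qf (QA 0) e =
    26 * e 0 ^ 2 + 44 * (e 0 * e 1) + 20 * (e 0 * e 2) - 26 * (e 0 * e 3) + 14 * (e 1 * e 2) := by
  simp [qf, QA, QAi, Matrix.mulVec, dotProduct, Fin.sum_univ_four]
  ring

theorem qfA1 (e : Fin 4 → ℂ) : qf (QA 1) e =
    18 * e 0 ^ 2 + 38 * (e 0 * e 1) + 44 * (e 0 * e 2) - 18 * (e 0 * e 3) + 14 * e 1 ^ 2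
      + 14 * (e 1 * e 2) - 14 * (e 1 * e 3) := by
  simp [qf, QA, QAi, Matrix.mulVec, dotProduct, Fin.sum_univ_four]
  ring

theorem qfA2 (e : Fin 4 → ℂ) : qf (QA 2) e =
    -6 * e 0 ^ 2 + 20 * (e 0 * e 1) - 10 * (e 0 * e 2) + 6 * (e 0 * e 3)
      + 14 * (e 1 * e 2) + 14 * e 2 ^ 2 - 14 * (e 2 * e 3) := by
  simp [qf, QA, QAi, Matrix.mulVec, dotProduct, Fin.sum_univ_four]
  ring

theorem PA_val : PA = ![![1, 0, 0, 1], ![0, 1, 0, 1], ![0, 0, 1, 1], ![0, 0, 0, 1], ![1, 1, 1, 4],
    ![1, -4, -2, -3], ![1, -2, 2, -3], ![1, 2, -4, -3]] := by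
  funext i j
  fin_cases i <;> fin_cases j <;> simp [PA, PAi]

theorem solve0 {a b d : ℂ} (h0 : 9 * a - 3 * b - 13 * d + 7 * (a * b) = 0)
    (h1 : 3 * a + 13 * b - 9 * d - 7 * (a * d) = 0)
    (h2 : 13 * a - 9 * b + 3 * d - 7 * (b * d) = 0) :
    (a = 0 ∧ b = 0 ∧ d = 0) ∨ (a = 1 ∧ b = 1 ∧ d = 1) ∨ (a = -4 ∧ b = -2 ∧ d = 2) ∨
    (a = -2 ∧ b = 2 ∧ d = -4) ∨ (a = 2 ∧ b = -4 ∧ d = -2) := by
  have e1 : b * (7 * a ^ 2 + 6 * a - 28) + (9 * a ^ 2 + 6 * a) = 0 := by
    linear_combination (-(13 : ℂ) / 7) * h1 + ((9 : ℂ) / 7 + a) * h0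
  have e2 : 28 * a - b * (18 + 6 * a) + b ^ 2 * (3 - 7 * a) = 0 := by
    linear_combination ((13 : ℂ) / 7) * h2 + ((3 : ℂ) / 7 - b) * h0
  have e3 : a * ((a - 1) * ((a + 4) * ((a + 2) * (a - 2)))) = 0 := by
    linear_combination (1 / 1183 : ℂ) * ((7 * a ^ 2 + 6 * a - 28) ^ 2 * e2 +
      ((7 * a ^ 2 + 6 * a - 28) * (18 + 6 * a) +
        ((9 * a ^ 2 + 6 * a) - b * (7 * a ^ 2 + 6 * a - 28)) * (3 - 7 * a)) * e1)
  rcases mul_eq_zero.1 e3 with h | h
  · subst h
    have hb : b = 0 := by linear_combination (-1 / 28 : ℂ) * e1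
    subst hb
    have hd : d = 0 := by linear_combination (-1 / 13 : ℂ) * h0
    exact Or.inl ⟨rfl, rfl, hd⟩
  rcases mul_eq_zero.1 h with h | h
  · have ha : a = 1 := by linear_combination h
    subst ha
    have hb : b = 1 := by linear_combination (-1 / 15 : ℂ) * e1
    subst hb
    have hd : d = 1 := by linear_combination (-1 / 13 : ℂ) * h0
    exact Or.inr (Or.inl ⟨rfl, rfl, hd⟩)
  rcases mul_eq_zero.1 h with h | h
  · have ha : a = -4 := by linear_combination h
    subst ha
    have hb : b = -2 := by linear_combination (1 / 60 : ℂ) * e1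
    subst hb
    have hd : d = 2 := by linear_combination (-1 / 13 : ℂ) * h0
    exact Or.inr (Or.inr (Or.inl ⟨rfl, rfl, hd⟩))
  rcases mul_eq_zero.1 h with h | h
  · have ha : a = -2 := by linear_combination h
    subst ha
    have hb : b = 2 := by linear_combination (-1 / 12 : ℂ) * e1
    subst hb
    have hd : d = -4 := by linear_combination (-1 / 13 : ℂ) * h0
    exact Or.inr (Or.inr (Or.inr (Or.inl ⟨rfl, rfl, hd⟩)))
  · have ha : a = 2 := by linear_combination h
    subst ha
    have hb : b = -4 := by linear_combination (1 / 12 : ℂ) * e1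
    subst hb
    have hd : d = -2 := by linear_combination (-1 / 13 : ℂ) * h0
    exact Or.inr (Or.inr (Or.inr (Or.inr ⟨rfl, rfl, hd⟩)))

theorem ext4 {e f : Fin 4 → ℂ} (h0 : e 0 = f 0) (h1 : e 1 = f 1) (h2 : e 2 = f 2) (h3 : e 3 = f 3) :
    e = f := by
  funext i
  fin_cases i
  · exact h0
  · exact h1
  · exact h2
  · exact h3

theorem t_BASEA : S_BASEA := by
  intro e
  constructor
  · rintro ⟨hne, hk⟩
    have h0 := hk 0
    have h1 := hk 1
    have h2 := hk 2
    rw [qfA0] at h0
    rw [qfA1] at h1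
    rw [qfA2] at h2
    by_cases hx : e 0 = 0
    · rw [hx] at h0 h1 h2
      have g0 : e 1 * e 2 = 0 := by linear_combination (1 / 14 : ℂ) * h0
      by_cases hx1 : e 1 = 0
      · rw [hx1] at h2
        by_cases hx2 : e 2 = 0
        · refine ⟨3, e 3, ?_, ?_⟩
          · intro h3
            exact hne (ext4 hx hx1 hx2 h3)
          · rw [PA_val]
            apply ext4 <;> simp [hx, hx1, hx2]
        · have h3 : e 3 = e 2 := by
            have : e 2 * (e 3 - e 2) = 0 := by linear_combination (-1 / 14 : ℂ) * h2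
            rcases mul_eq_zero.1 this with h | h
            · exact absurd h hx2
            · linear_combination h
          refine ⟨2, e 2, hx2, ?_⟩
          rw [PA_val]
          apply ext4 <;> simp [hx, hx1, h3]
      · have hx2 : e 2 = 0 := by
          rcases mul_eq_zero.1 g0 with h | h
          · exact absurd h hx1
          · exact h
        rw [hx2] at h1
        have h3 : e 3 = e 1 := by
          have : e 1 * (e 3 - e 1) = 0 := by linear_combination (-1 / 14 : ℂ) * h1
          rcases mul_eq_zero.1 this with h | h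
          · exact absurd h hx1
          · linear_combination h
        refine ⟨1, e 1, hx1, ?_⟩
        rw [PA_val]
        apply ext4 <;> simp [hx, hx2, h3]
    · obtain ⟨a, ha⟩ : ∃ a, e 1 = e 0 * a := ⟨e 1 / e 0, by field_simp⟩
      obtain ⟨b, hb⟩ : ∃ b, e 2 = e 0 * b := ⟨e 2 / e 0, by field_simp⟩
      obtain ⟨d, hd⟩ : ∃ d, e 3 = e 0 * (1 + a + b + d) :=
        ⟨e 3 / e 0 - 1 - a - b, by field_simp; ring⟩
      rw [ha, hb, hd] at h0 h1 h2
      have hx' : e 0 ^ 2 * 2 ≠ 0 := mul_ne_zero (pow_ne_zero _ hx) two_ne_zero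
      have g0 : 9 * a - 3 * b - 13 * d + 7 * (a * b) = 0 := by
        apply mul_left_cancel₀ hx'
        linear_combination h0
      have g1 : 3 * a + 13 * b - 9 * d - 7 * (a * d) = 0 := by
        apply mul_left_cancel₀ hx'
        linear_combination h1
      have g2 : 13 * a - 9 * b + 3 * d - 7 * (b * d) = 0 := by
        apply mul_left_cancel₀ hx'
        linear_combination h2
      rcases solve0 g0 g1 g2 with h | h | h | h | h <;> obtain ⟨rfl, rfl, rfl⟩ := h
      · refine ⟨0, e 0, hx, ?_⟩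
        rw [PA_val]
        apply ext4
        · simp
        · simp [ha]
        · simp [hb]
        · rw [hd]; simp
      · refine ⟨4, e 0, hx, ?_⟩
        rw [PA_val]
        apply ext4
        · simp
        · simp [ha]
        · simp [hb]
        · rw [hd]; simp; norm_num
      · refine ⟨5, e 0, hx, ?_⟩
        rw [PA_val]
        apply ext4
        · simp
        · simp [ha]
        · simp [hb]
        · rw [hd]; simp; norm_num
      · refine ⟨6, e 0, hx, ?_⟩
        rw [PA_val]
        apply ext4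
        · simp
        · simp [ha]
        · simp [hb]
        · rw [hd]; simp; norm_num
      · refine ⟨7, e 0, hx, ?_⟩
        rw [PA_val]
        apply ext4
        · simp
        · simp [ha]
        · simp [hb]
        · rw [hd]; simp; norm_num
  · rintro ⟨i, c, hc, rfl⟩
    rw [PA_val]
    refine ⟨?_, ?_⟩
    · intro h
      have k3 := congrFun h 3
      apply hc
      fin_cases i <;> simpa using k3
    · intro k
      fin_cases k
      · change qf (QA 0) _ = 0
        rw [qfA0]
        fin_cases i <;> simp <;> ring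
      · change qf (QA 1) _ = 0
        rw [qfA1]
        fin_cases i <;> simp <;> ring
      · change qf (QA 2) _ = 0
        rw [qfA2]
        fin_cases i <;> simp <;> ring

end Pool.Agent.H349.ZL
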